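import Pool.Agent.P.MP_9167e9_an.StG

/-! LINK: the local data seen from a base point, and their invariance along `Same`. -/

noncomputable section
open scoped Classical

namespace Pool.Agent.P.MP_9167e9_an.Link

theorem nr_mul {A : Type} (x y : FreeGroup A) : nr (x * y) ≤ nr x + nr y :=
  @FreeGroup.norm_mul_le A (Classical.decEq A) x y

theorem nr_inv {A : Type} (x : FreeGroup A) : nr x⁻¹ = nr x :=
  @FreeGroup.norm_inv_eq A (Classical.decEq A) x

theorem nr_of {A : Type} (a : A) : nr (FreeGroup.of a) = 1 :=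
  @FreeGroup.norm_of A (Classical.decEq A) a

theorem nr_one {A : Type} : nr (1 : FreeGroup A) = 0 :=
  @FreeGroup.norm_one A (Classical.decEq A)

variable {P : Prm}

/-- The moves of a word. -/
def prS : FreeGroup (P.S ⊕ P.S) →* FreeGroup P.S :=
  FreeGroup.lift (Sum.elim FreeGroup.of fun _ => 1)

theorem nr_prS (u : FreeGroup (P.S ⊕ P.S)) : nr (prS u) ≤ nr u := by
  have h : ∀ L : List ((P.S ⊕ P.S) × Bool), nr (prS (FreeGroup.mk L)) ≤ L.length := by
    intro L
    induction L with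
    | nil => exact le_of_eq (by rw [show FreeGroup.mk [] = 1 from rfl, map_one, nr_one]; rfl)
    | cons a L ih =>
      have e : FreeGroup.mk (a :: L) = FreeGroup.mk [a] * FreeGroup.mk L := by
        rw [FreeGroup.mul_mk]; rfl
      have h1 : nr (prS (P := P) (FreeGroup.mk [a])) ≤ 1 := by
        obtain ⟨s, b⟩ := a
        have h0 : nr (prS (P := P) (FreeGroup.of s)) ≤ 1 := by
          cases s <;> simp [prS, nr_of, nr_one]
        cases b
        · have : FreeGroup.mk [(s, false)] = (FreeGroup.of s)⁻¹ := rfl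
          rwa [this, map_inv, nr_inv]
        · exact h0
      rw [e, map_mul, List.length_cons]
      exact (nr_mul _ _).trans (by omega)
  have := h (@FreeGroup.toWord _ (Classical.decEq _) u)
  rwa [@FreeGroup.mk_toWord _ (Classical.decEq _) u] at this

theorem am_fst (F : Set (Cell P)) (c : Cell P) (u : FreeGroup (P.S ⊕ P.S)) (z : Zm F c) :
    (am F c u z).1 = mkG F (prS u) * z.1 := by
  induction u using FreeGroup.induction_on generalizing z with
  | C1 => simp
  | of s => cases s <;> simp [am, prS]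
  | inv_of s ih =>
    have := ih ((am F c (FreeGroup.of s))⁻¹ z)
    rw [← Equiv.Perm.mul_apply, mul_inv_cancel, Equiv.Perm.one_apply] at this
    rw [map_inv, map_inv, map_inv, this, inv_mul_cancel_left]
  | mul x y hx hy => rw [map_mul, Equiv.Perm.mul_apply, hx, hy, map_mul, map_mul, mul_assoc]

theorem Same.symm {F F' : Set (Cell P)} {c c' : Cell P} {x x' : FreeGroup P.S}
    (h : Same F F' c c' x x') : Same F' F c' c x' x :=
  ⟨h.adm', h.adm, h.mem', h.mem, h.R_eq.symm, fun e he => (h.agree e (h.R_eq ▸ he)).symm,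
    h.core', h.core, fun a ha => (h.vis a (by unfold Cell.R2 at ha ⊢; rwa [h.R_eq])).symm⟩

/-- The point reached from the base point by a word. -/
def pt (F : Set (Cell P)) (c : Cell P) (x : FreeGroup P.S) (u : FreeGroup (P.S ⊕ P.S)) : Zm F c :=
  am F c u (mkG F x, cls F c 1)

theorem pt_fst (F : Set (Cell P)) (c : Cell P) (x : FreeGroup P.S) (u : FreeGroup (P.S ⊕ P.S)) :
    (pt F c x u).1 = mkG F (prS u * x) := by
  rw [pt, am_fst, map_mul]

/-- Short words. -/
abbrev WW (P : Prm) (n : ℕ) : Type := {u // u ∈ ballF (P.S ⊕ P.S) n}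

/-- The chosen shortest word with the same end point. -/
def rp0 {n : ℕ} (E : WW P n → WW P n → Prop) (u : WW P n) : WW P n :=
  @Classical.epsilon _ ⟨u⟩ fun u' => E u' u ∧ ∀ u'', E u'' u → nr u'.1 ≤ nr u''.1

/-- Two words have the same end point. -/
def Eq0 (F : Set (Cell P)) (c : Cell P) (x : FreeGroup P.S) (n : ℕ) (u u' : WW P n) : Prop :=
  pt F c x u.1 = pt F c x u'.1

section
variable (F : Set (Cell P)) (c : Cell P) (x : FreeGroup P.S) {n : ℕ}

/-- The word is the chosen one. -/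
def rep (u : WW P n) : Prop := rp0 (Eq0 F c x n) u = u

theorem rp0_spec (u : WW P n) : pt F c x (rp0 (Eq0 F c x n) u).1 = pt F c x u.1 ∧
    nr (rp0 (Eq0 F c x n) u).1 ≤ nr u.1 := by
  have h : ∃ u' : WW P n, Eq0 F c x n u' u ∧ ∀ u'', Eq0 F c x n u'' u → nr u'.1 ≤ nr u''.1 := by
    exact ⟨_, Function.argminOn_mem (fun u' : WW P n => nr u'.1) {u' | Eq0 F c x n u' u} ⟨u, rfl⟩,
      fun u'' h => Function.argminOn_le (fun u' : WW P n => nr u'.1) {u' | Eq0 F c x n u' u} h⟩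
  have := Classical.epsilon_spec h
  exact ⟨this.1, this.2 u rfl⟩

theorem rp0_congr {u u' : WW P n} (h : pt F c x u.1 = pt F c x u'.1) :
    rp0 (Eq0 F c x n) u = rp0 (Eq0 F c x n) u' := by
  unfold rp0 Eq0
  rw [h]

theorem rep_rp0 (u : WW P n) : rep F c x (rp0 (Eq0 F c x n) u) :=
  rp0_congr F c x (rp0_spec F c x u).1

theorem rep_inj (u u' : WW P n) (h : rep F c x u) (h' : rep F c x u')
    (e : pt F c x u.1 = pt F c x u'.1) : u = u' := by
  rw [← h, ← h', rp0_congr F c x e]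

/-- The kernel read on chosen words. -/
def Xh (y : MonoidAlgebra ℂ (FreeGroup (P.S ⊕ P.S))) (u u' : WW P n) : ℂ :=
  if rep F c x u ∧ rep F c x u' then kr (am F c) y (pt F c x u.1) (pt F c x u'.1) else 0

/-- The chosen words of length at most `N + a`. -/
def inU (N a : ℕ) (u : WW P n) : Prop := rep F c x u ∧ nr u.1 ≤ N + a

end

/-- A valid address with the property `p`. -/
def pick {j D : ℕ} (ρ : ℕ) (p : List (AL j D) → Prop) : List (AL j D) :=
  if h : ∃ w, AV ρ w ∧ p w then h.choose else []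

theorem pick_AV {j D : ℕ} (ρ : ℕ) (p : List (AL j D) → Prop) : AV ρ (pick ρ p) := by
  unfold pick
  split_ifs with h
  · exact h.choose_spec.1
  · exact ⟨List.isChain_nil, Nat.zero_le _⟩

theorem pick_spec {j D : ℕ} {ρ : ℕ} {p : List (AL j D) → Prop} (h : ∃ w, AV ρ w ∧ p w) :
    p (pick ρ p) := by
  unfold pick
  rw [dif_pos h]
  exact h.choose_spec.2

theorem pick_congr {j D : ℕ} {ρ : ℕ} {p p' : List (AL j D) → Prop}
    (h : ∀ w, AV ρ w → (p w ↔ p' w)) : pick ρ p = pick ρ p' := by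
  have : (fun w => AV ρ w ∧ p w) = fun w => AV ρ w ∧ p' w :=
    funext fun w => propext (and_congr_right (h w))
  unfold pick
  simp only [this]

/-- The address of the end point of `pw`. -/
def psn {j D : ℕ} (F : Set (Cell P)) (c : Cell P) (x : FreeGroup P.S) (ρ ρ' : ℕ)
    (hw : List (AL j D) → FreeGroup P.S) {n : ℕ} (u : WW P n) : List (AL j D) :=
  pick ρ fun w => w.length ≤ ρ' ∧
    mkG F (hw w * x) = mkG F (pw F c (pt F c x u.1).1) * (pt F c x u.1).1

theorem mk_eq_iff (F : Set (Cell P)) (a b x : FreeGroup P.S) :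
    mkG F (a * x) = mkG F (b * x) ↔ a⁻¹ * b ∈ KG F := by
  rw [map_mul, map_mul, mul_left_inj]
  exact QuotientGroup.eq

theorem pow_facts {R : ℕ} (hR : 1000 ≤ R) : R + (R ^ 11 + R ^ 4) ≤ R ^ 12 ∧
    2 * (R ^ 11 + R ^ 4) ≤ R ^ 13 ∧ R ^ 13 + 2 * (R ^ 11 + R ^ 4) ≤ R ^ 14 ∧
    R ^ 4 + R ^ 13 < 10 ^ 4 * R ^ 15 := by
  have h1 : 1 ≤ R := by omega
  have p1 : ∀ a b : ℕ, a ≤ b → R ^ a ≤ R ^ b := fun a b h => Nat.pow_le_pow_right h1 h
  have p2 : ∀ a : ℕ, 1000 * R ^ a ≤ R ^ (a + 1) := fun a => by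
    rw [pow_succ, mul_comm]; gcongr
  have a1 := p1 1 11 (by norm_num)
  have a2 := p1 4 11 (by norm_num)
  have a3 : 1000 * R ^ 11 ≤ R ^ 12 := p2 11
  have a4 : 1000 * R ^ 12 ≤ R ^ 13 := p2 12
  have a5 : 1000 * R ^ 13 ≤ R ^ 14 := p2 13
  have a6 : 1000 * R ^ 14 ≤ R ^ 15 := p2 14
  have a7 : 1 ≤ R ^ 15 := Nat.one_le_pow _ _ h1
  rw [pow_one] at a1
  omega

section Inv
variable {F F' : Set (Cell P)} {c c' : Cell P} {x x' : FreeGroup P.S}

theorem pt_iff (hZ : StLocZ) (h : Same F F' c c' x x') {u u' : FreeGroup (P.S ⊕ P.S)}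
    (hu : nr u ≤ c.R ^ 12) (hu' : nr u' ≤ c.R ^ 12) :
    pt F c x u = pt F c x u' ↔ pt F' c' x' u = pt F' c' x' u' :=
  ⟨hZ P F F' c c' x x' h u u' hu hu',
    hZ P F' F c' c x' x (Same.symm h) u u' (h.R_eq ▸ hu) (h.R_eq ▸ hu')⟩

variable (hB : StBall) {R : ℕ} (hR : c.R = R)
include hB

theorem nr_W {n : ℕ} (u : WW P n) : nr u.1 ≤ n := ((hB _ n).1 u.1).1 u.2

include hR

theorem Eq0_eq (hZ : StLocZ) (h : Same F F' c c' x x') :
    Eq0 F c x (R ^ 11 + R ^ 4) = Eq0 F' c' x' (R ^ 11 + R ^ 4) := by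
  have hb := pow_facts (h.adm.ok c h.mem).R_big
  subst hR
  funext u u'
  have := nr_W hB u
  have := nr_W hB u'
  exact propext (pt_iff hZ h (by omega) (by omega))

theorem rep_eq (hZ : StLocZ) (h : Same F F' c c' x x') :
    rep F c x (n := R ^ 11 + R ^ 4) = rep F' c' x' := by
  funext u
  unfold rep
  rw [Eq0_eq hB hR hZ h]

theorem inU_eq (hZ : StLocZ) (h : Same F F' c c' x x') (N : ℕ) :
    inU F c x (n := R ^ 11 + R ^ 4) N = inU F' c' x' N := by
  funext a u
  unfold inU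
  rw [rep_eq hB hR hZ h]

theorem Xh_eq (hZ : StLocZ) (h : Same F F' c c' x x')
    (y : MonoidAlgebra ℂ (FreeGroup (P.S ⊕ P.S))) (hy : ∀ f ∈ y.coeff.support, nr f ≤ R) :
    Xh F c x (n := R ^ 11 + R ^ 4) y = Xh F' c' x' y := by
  funext u u'
  unfold Xh
  rw [rep_eq hB hR hZ h]
  congr 1
  unfold kr Finsupp.sum
  refine Finset.sum_congr rfl fun f hf => ?_
  have hb := pow_facts (h.adm.ok c h.mem).R_big
  subst hR
  have h1 := nr_W hB u
  have h2 := nr_W hB u'
  have h3 := nr_mul f u'.1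
  have h4 := hy f hf
  have e := pt_iff hZ h (u := f * u'.1) (u' := u.1) (by omega) (by omega)
  have e1 : am F c f (pt F c x u'.1) = pt F c x (f * u'.1) := by simp [pt]
  have e2 : am F' c' f (pt F' c' x' u'.1) = pt F' c' x' (f * u'.1) := by simp [pt]
  simp only [e1, e2, e]

omit hB hR in
theorem inP_self (h : Same F F' c c' x x') (b : FreeGroup P.S) :
    InP F c (mkG F b⁻¹ * mkG F (b * x)) :=
  ⟨x, (h.adm.ok c h.mem).sub x h.core, by simp⟩

omit hB hR in
theorem pw_pred (hG : StLocG) (h : Same F F' c c' x x') (b : FreeGroup P.S)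
    (hb : 2 * nr b ≤ c.R ^ 13) (a : FreeGroup P.S)
    (ha : InP F c (mkG F a * mkG F (b * x)) ∧
      ∀ a', InP F c (mkG F a' * mkG F (b * x)) → nr a ≤ nr a') :
    InP F' c' (mkG F' a * mkG F' (b * x')) ∧
      ∀ a', InP F' c' (mkG F' a' * mkG F' (b * x')) → nr a ≤ nr a' := by
  have h1 := ha.2 _ (inP_self h b)
  rw [nr_inv] at h1
  constructor
  · have := (hG P F F' c c' x x' h).2.1 (a * b) (by have := nr_mul a b; omega)
    simp only [mul_assoc, map_mul] at this ha ⊢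
    exact this ha.1
  · intro a' ha'
    by_contra hc
    have := (hG P F' F c' c x' x (Same.symm h)).2.1 (a' * b)
      (by have := nr_mul a' b; rw [← h.R_eq]; omega)
    simp only [mul_assoc, map_mul] at this ha ha'
    exact hc (ha.2 a' (this ha'))

omit hB hR in
theorem pw_eq (hG : StLocG) (h : Same F F' c c' x x') (b : FreeGroup P.S)
    (hb : 2 * nr b ≤ c.R ^ 13) : pw F c (mkG F (b * x)) = pw F' c' (mkG F' (b * x')) := by
  unfold pw
  congr 1
  funext a
  exact propext ⟨pw_pred hG h b hb a, pw_pred hG (Same.symm h) b (h.R_eq ▸ hb) a⟩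

theorem psn_eq {j D : ℕ} (hG : StLocG) (hN : StNearG) (h : Same F F' c c' x x') {ρ : ℕ}
    (hw hw' : List (AL j D) → FreeGroup P.S) (e : ∀ w, AV ρ w → hw w = hw' w)
    (hl : ∀ w, AV ρ w → nr (hw w) = w.length) :
    psn F c x ρ (R ^ 13) hw (n := R ^ 11 + R ^ 4) = psn F' c' x' ρ (R ^ 13) hw' := by
  funext u
  have hb := pow_facts (h.adm.ok c h.mem).R_big
  subst hR
  have h1 := nr_W hB u
  have h2 := nr_prS u.1
  refine pick_congr fun w hw0 => and_congr_right fun hlen => ?_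
  rw [pt_fst, pt_fst, ← pw_eq hG h _ (by omega), ← e w hw0, ← map_mul, ← map_mul, ← mul_assoc,
    ← mul_assoc, mk_eq_iff, mk_eq_iff]
  have h3 := ((hN P F h.adm c h.mem).pw_spec (mkG F (prS u.1 * x))).2 _ (inP_self h (prS u.1))
  rw [nr_inv] at h3
  have h4 : nr ((hw w)⁻¹ * (pw F c (mkG F (prS u.1 * x)) * prS u.1)) ≤ c.R ^ 14 := by
    have a1 := nr_mul (hw w)⁻¹ (pw F c (mkG F (prS u.1 * x)) * prS u.1)
    have a2 := nr_mul (pw F c (mkG F (prS u.1 * x))) (prS u.1)
    rw [nr_inv, hl w hw0] at a1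
    omega
  exact ⟨(hG P F F' c c' x x' h).1 _ h4,
    (hG P F' F c' c x' x (Same.symm h)).1 _ (h.R_eq ▸ h4)⟩

end Inv

end Pool.Agent.P.MP_9167e9_an.Link
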