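import Pool.Agent.P.MP_9167e9_an.Link.Tr
import Pool.Agent.P.MP_9167e9_an.Link.Loc
import Pool.Agent.P.MP_9167e9_an.Near.Wd

/-! LINK: a choice of the hidden indices for which the core is hidden. -/

noncomputable section
open scoped Classical

namespace Pool.Agent.P.MP_9167e9_an

namespace Link

theorem psn_gen (hB : StBall) (hBas : StBas) (hG1 : StGam1) (hN : StNearG) {P : Prm}
    {F : Set (Cell P)} (hF : Adm F) {c : Cell P} (hc : c ∈ F) {x : FreeGroup P.S} (hx : c.Qc x)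
    {j D : ℕ} (hw : List (AL j D) → FreeGroup P.S)
    (read : ∀ z, nr z ≤ c.R ^ 14 → (z * x ∈ c.Qp ↔ ∃ w, AV (c.R ^ 14) w ∧ z = hw w))
    (len : ∀ w, AV (c.R ^ 14) w → nr (hw w) = w.length) (u : WW P (c.R ^ 11 + c.R ^ 4))
    (w : List (AL j D)) (e : w = psn F c x (c.R ^ 14) (c.R ^ 13) hw u) :
    w.length ≤ c.R ^ 13 ∧
      mkG F (hw w * x) = mkG F (pw F c (pt F c x u.1).1) * (pt F c x u.1).1 := by
  have ok := hF.ok _ hc
  have bas := hBas _ _ (le_trans (by norm_num) hF.j_big) ok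
  have g1 := hG1 _ F hF
  have nr0 := hN _ F hF _ hc
  have hb := pow_facts ok.R_big
  have h1 := nr_W hB u
  have h2 := nr_prS u.1
  rw [e]
  refine pick_spec (p := fun w => w.length ≤ c.R ^ 13 ∧
    mkG F (hw w * x) = mkG F (pw F c (pt F c x u.1).1) * (pt F c x u.1).1) ?_
  rw [pt_fst]
  obtain ⟨⟨x1, hx1, e1⟩, hmin⟩ := nr0.pw_spec (mkG F (prS u.1 * x))
  have h3 := hmin (prS u.1)⁻¹ ⟨x, ok.sub x hx, by simp⟩
  rw [nr_inv] at h3
  obtain ⟨k, hk, e2⟩ := g1.iso _ hc x (ok.sub x hx) x1 hx1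
  have hk' := (bas.memK k).1 hk
  have hx2 : x1 * k ∈ c.Qp := ok.inv x1 hx1 k hk'.1 (congrArg Prod.fst hk'.2)
  have h4 : nr (x1 * k * x⁻¹) ≤ 2 * (c.R ^ 11 + c.R ^ 4) := by
    have a1 := g1.dG_le (mkG F x) (pw F c (mkG F (prS u.1 * x)) * prS u.1)
    have a2 := nr_mul (pw F c (mkG F (prS u.1 * x))) (prS u.1)
    rw [map_mul, mul_assoc, ← map_mul _ (prS u.1), ← e1, ← e2] at a1
    rw [← nr_inv, mul_inv_rev, inv_inv]
    omega
  obtain ⟨w', hw', e3⟩ := (read (x1 * k * x⁻¹) (by omega)).1 (by simpa using hx2)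
  refine ⟨w', hw', ?_, ?_⟩
  · rw [← len w' hw', ← e3]; omega
  · have : mkG F k = 1 :=
      (QuotientGroup.eq_one_iff k).2 (Subgroup.subset_normalClosure ⟨_, hc, hk⟩)
    rw [← e3, ← e1, inv_mul_cancel_right, map_mul, this, mul_one]

variable {j h a b D : ℕ} [NeZero D] {K : Core j h a b}

section One
variable (hB : StBall) (hBas : StBas) (hG1 : StGam1) (hN : StNearG)
  {t : K.V → Om j D (K.R ^ 14)} {F : Set (Cell (cprm j h a b D))} (hF : Adm F)
  (hc : K.cell t ∈ F) {s : Om j D (K.R ^ 14)} {x : FreeGroup (cprm j h a b D).S}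
  (hx : (K.cell t).Qc x) (ha : AddrOut K t s x)
include hB hBas hG1 hN hF hc hx ha

theorem psn_spec (u : WW (cprm j h a b D) (K.R ^ 11 + K.R ^ 4)) (w : List (AL j D))
    (hw : w = psn F (K.cell t) x (K.R ^ 14) (K.R ^ 13) (K.hw (ext s) ((K.cell t).vx x)) u) :
    qf F (K.cell t) (pt F (K.cell t) x u.1) =
      go (dbl K.τ) (sl (root (ext s) w)) ((K.cell t).cp x) ∧
    FreeGroup.IsReduced (sl (root (ext s) w)) ∧ (sl (root (ext s) w)).length ≤ K.R ^ 13 := by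
  have nr0 := hN _ F hF _ hc
  have hAV : AV (K.R ^ 14) w := hw ▸ pick_AV _ _
  have hp := psn_gen hB hBas hG1 hN hF hc hx (K.hw (ext s) ((K.cell t).vx x)) ha.read ha.len u
  replace hp := hp w hw
  obtain ⟨g1', g2, g3, g4, g5⟩ := ha.gate w hAV
  refine ⟨?_, g4, ?_⟩
  · rw [← g3]
    refine nr0.qf_spec _ _ ((ha.read _ ?_).2 ⟨w, hAV, rfl⟩) hp.2 _ g1' g2
    rw [ha.len w hAV]
    exact hAV.2
  · rw [sl, List.length_map]
    exact g5.trans hp.1

theorem spl_of {π : K.V × ZMod 2} (hπ : x = (K.cell t).rp π)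
    {X : Zm F (K.cell t) → Zm F (K.cell t) → ℂ} {Λ σ : ℝ} (hX : FB X Λ) {a' r : ℕ}
    {l : Option (Lt j)} (har : a' + r ≤ K.R ^ 4)
    (hL : LSpl s (fun u u' : WW (cprm j h a b D) (K.R ^ 11 + K.R ^ 4) =>
        if rep F (K.cell t) x u ∧ rep F (K.cell t) x u' then
          X (pt F (K.cell t) x u.1) (pt F (K.cell t) x u'.1) else 0)
      (psn F (K.cell t) x (K.R ^ 14) (K.R ^ 13) (K.hw (ext s) ((K.cell t).vx x)))
      (inU F (K.cell t) x (K.R ^ 11)) (K.R ^ 4) a' l r σ) :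
    Spl X Λ σ (((2 * j : ℝ) ^ (2 * r))⁻¹)
      (Fib (dbl K.τ) (qf F (K.cell t)) (Uf F (K.cell t)) π a' l) (idx j r l)
      (Bey (dbl K.τ) (qf F (K.cell t)) (Uf F (K.cell t)) (K.R ^ 4) π (r / 2)) := by
  have ok := hF.ok _ hc
  have bas := hBas _ _ (le_trans (by norm_num) hF.j_big) ok
  have hb : _ := pow_facts (R := K.R) ok.R_big
  have hcp : (K.cell t).cp x = π := hπ ▸ (bas.rp π).2
  have hq := fun u => psn_spec hB hBas hG1 hN hF hc hx ha u _ rfl
  rw [hcp] at hq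
  have hinj : ∀ u u', FreeGroup.IsReduced u → FreeGroup.IsReduced u' →
      u.length + u'.length < 10 ^ 4 * K.R ^ 15 → go (dbl K.τ) u π = go (dbl K.τ) u' π → u = u' :=
    bas.ht.inj π
  have hU : ∀ n z, z ∈ Uf F (K.cell t) π n ↔
      ∃ u, nr u ≤ K.R ^ 11 + n ∧ pt F (K.cell t) x u = z := by
    intro n z
    simp only [Uf, Finset.mem_image, (hB _ _).1, pt, hπ]
    rfl
  have hrep : ∀ n z, n ≤ K.R ^ 4 → z ∈ Uf F (K.cell t) π n →
      ∃ u : WW (cprm j h a b D) (K.R ^ 11 + K.R ^ 4), inU F (K.cell t) x (K.R ^ 11) n u ∧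
        pt F (K.cell t) x u.1 = z := by
    intro n z hn hz
    obtain ⟨u, hu, rfl⟩ := (hU n z).1 hz
    have hu' : u ∈ ballF _ (K.R ^ 11 + K.R ^ 4) := ((hB _ _).1 u).2 (by omega)
    have := rp0_spec F (K.cell t) x ⟨u, hu'⟩
    exact ⟨_, ⟨rep_rp0 F (K.cell t) x ⟨u, hu'⟩, this.2.trans hu⟩, this.1⟩
  refine spl_push (fun u : WW (cprm j h a b D) (K.R ^ 11 + K.R ^ 4) => pt F (K.cell t) x u.1)
    (rep F (K.cell t) x) (rep_inj F (K.cell t) x) ?_ ?_ ?_ ?_
    (hL Λ (fb_pull _ _ (rep_inj F (K.cell t) x) (fb_nonneg hX (pt F (K.cell t) x 1)) hX))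
  · exact fun u hu => (Finset.mem_filter.1 hu).2.1.1
  · exact fun v u hu => (Finset.mem_filter.1 hu).2.1.1
  · ext z
    simp only [Fib, Finset.mem_filter, Finset.mem_image, Finset.mem_univ, true_and]
    constructor
    · rintro ⟨hz, v, hv, hl, hh, e⟩
      obtain ⟨u, hu, rfl⟩ := hrep a' z (by omega) hz
      refine ⟨u, ⟨hu, v, hv, hl, hh, ?_⟩, rfl⟩
      obtain ⟨q1, q2, q3⟩ := hq u
      refine hinj _ _ q2 (Near.red_invRev hv) (by rw [FreeGroup.invRev_length]; omega) ?_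
      rw [← q1, ← e, Near.go_inv_go]
    · rintro ⟨u, ⟨hu, v, hv, hl, hh, e⟩, rfl⟩
      refine ⟨(hU _ _).2 ⟨u.1, hu.2, rfl⟩, v, hv, hl, hh, ?_⟩
      rw [(hq u).1, e, Near.go_go_inv]
  · intro v z hz
    simp only [Bey, Finset.mem_filter] at hz
    obtain ⟨hz, u', y, h1, h2, h3, h4, e⟩ := hz
    obtain ⟨u, hu, rfl⟩ := hrep _ z le_rfl hz
    simp only [Finset.mem_filter, Finset.mem_image, Finset.mem_univ, true_and]
    refine ⟨u, ⟨hu, u', y, h1, h2, ?_⟩, rfl⟩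
    obtain ⟨q1, q2, q3⟩ := hq u
    exact hinj _ _ q2 h4 (by omega) (q1.symm.trans e)

end One

instance finOm (j D ρ : ℕ) [NeZero D] : Finite {w : List (AL j D) // AV ρ w} :=
  ((List.finite_length_le (AL j D) ρ).subset fun _ hw => hw.2).to_subtype

theorem visEq_iff {j D ρ : ℕ} {s s' : Om j D ρ} (h : VisEq s s') (s0 : Om j D ρ) :
    VisEq s0 s ↔ VisEq s0 s' :=
  ⟨fun h0 w i hw => (h0 w i hw).trans (h w i hw), fun h0 w i hw => (h0 w i hw).trans (h w i hw).symm⟩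

end Link

open Link in
theorem pLink (hP : StProb) (hA : StAddr) (hG : StLocG) (hZ : StLocZ) (hG1 : StGam1)
    (hBas : StBas) (hN : StNearG) (hB : StBall) : StLink := by
  intro j h a b D _ K F0 Y hD ok hF0 hadm hY hYl
  have hR := ok.R_big
  have hj : 1 ≤ j := le_trans (by norm_num) (hadm fun _ _ => 0).j_big
  obtain ⟨loc, hunif, haddr, hvis⟩ := hA j h a b D K (by omega) ok.girth
  have hbas : ∀ t : K.V → Om j D (K.R ^ 14), BasOut (K.cell t) := fun t =>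
    hBas _ _ hj ((hadm t).ok _ (Set.mem_insert _ _))
  have hvx : ∀ (t : K.V → Om j D (K.R ^ 14)) (π : K.V × ZMod 2),
      (K.cell t).vx ((K.cell t).rp π) = π.1 := fun t π => congrArg Prod.fst ((hbas t).rp π).2
  have had : ∀ (t : K.V → Om j D (K.R ^ 14)) (π : K.V × ZMod 2),
      AddrOut K t (loc t π.1) ((K.cell t).rp π) := fun t π => by
    have := haddr t _ ((hbas t).rp π).1
    rwa [hvx] at this
  -- the local data
  let T0 : K.V × ZMod 2 → Om j D (K.R ^ 14) → K.V → Om j D (K.R ^ 14) := fun π s =>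
    Classical.epsilon fun t0 => VisEq (loc t0 π.1) s
  have hT0 : ∀ π s s', VisEq s s' → T0 π s = T0 π s' := fun π s s' hs => by
    simp only [T0, visEq_iff hs]
  let W := WW (cprm j h a b D) (K.R ^ 11 + K.R ^ 4)
  let Xd : (K.V → Om j D (K.R ^ 14)) → K.V × ZMod 2 → Y → Bool → W → W → ℂ :=
    fun t π y β u u' =>
      Xh (insert (K.cell t) F0) (K.cell t) ((K.cell t).rp π) y.1 (if β then u else u')
        (if β then u' else u)
  let pd : (K.V → Om j D (K.R ^ 14)) → K.V × ZMod 2 → W → List (AL j D) := fun t π =>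
    psn (insert (K.cell t) F0) (K.cell t) ((K.cell t).rp π) (K.R ^ 14) (K.R ^ 13)
      (K.hw (ext (loc t π.1)) π.1)
  let ud : (K.V → Om j D (K.R ^ 14)) → K.V × ZMod 2 → ℕ → W → Prop := fun t π =>
    inU (insert (K.cell t) F0) (K.cell t) ((K.cell t).rp π) (K.R ^ 11)
  let E := (K.V × ZMod 2) × Y × Bool × Fin (K.R ^ 4 + 1) × Fin (K.R ^ 4 + 1) × Option (Lt j)
  let Bad : E → Om j D (K.R ^ 14) → Prop := fun e s =>
    ¬ LSpl s (Xd (T0 e.1 s) e.1 e.2.1 e.2.2.1) (pd (T0 e.1 s) e.1) (ud (T0 e.1 s) e.1) (K.R ^ 4)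
      e.2.2.2.1 e.2.2.2.2.2 (e.2.2.2.2.1 + 2) ((K.R : ℝ) ^ 18)
  have hRpos : (0 : ℝ) < (K.R : ℝ) ^ 18 := by positivity
  obtain ⟨t, ht⟩ := union_bound (fun (e : E) t => Bad e (loc t e.1.1))
    (((K.R : ℝ) ^ 18) ^ (K.R ^ 17))
    (Fintype.card W * ((K.R ^ 17 : ℕ) : ℝ) ^ (K.R ^ 17 + 1)) (by positivity)
    (fun e => prob_pull (fun t => loc t e.1.1) (Bad e) (hunif e.1.1 (Bad e)) _ _
      (hP j D (K.R ^ 14) W (fun s => Xd (T0 e.1 s) e.1 e.2.1 e.2.2.1)
        (fun s => pd (T0 e.1 s) e.1) (fun s => ud (T0 e.1 s) e.1) (K.R ^ 4) e.2.2.2.1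
        e.2.2.2.2.2 (e.2.2.2.2.1 + 2) (K.R ^ 17) _ hj hD (by omega)
        (Nat.one_le_pow _ _ (by omega)) hRpos
        (fun s s' hs => by simp only [hT0 e.1 s s' hs, and_self])
        (fun s u => pick_AV _ _)))
    (by
      have hS : Fintype.card (cprm j h a b D).S ≤ K.R :=
        ((hadm fun _ _ => 0).ok _ (Set.mem_insert _ _)).S_le
      have := num_bound K.R j _ (Fintype.card E) (Fintype.card W) hR ok.j_le hS
        (by
          simp only [E, Fintype.card_prod, ok.card, ZMod.card, Fintype.card_coe,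
            Fintype.card_bool, Fintype.card_fin, Fintype.card_option]
          rw [mul_comm j 2]
          gcongr)
        (by
          have := (hB ((cprm j h a b D).S ⊕ (cprm j h a b D).S) (K.R ^ 11 + K.R ^ 4)).2
          rwa [Fintype.card_sum, ← Fintype.card_coe] at this)
      exact_mod_cast this)
  refine ⟨t, fun F hF hc hag => ?_⟩
  have key : ∀ (y : Y) (β : Bool) (X : Zm F (K.cell t) → Zm F (K.cell t) → ℂ) (Λ : ℝ),
      (∀ w w', X w w' = kr (am F (K.cell t)) y.1 (if β then w else w') (if β then w' else w)) →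
      FB X Λ → HS (dbl K.τ) (qf F (K.cell t)) (Uf F (K.cell t)) (K.R ^ 4) X Λ
        ((K.R : ℝ) ^ 18) := by
    intro y β X Λ hXe hX π a' l r hr har
    have h0 := ht (π, y, β, ⟨a', by omega⟩, ⟨r - 2, by omega⟩, l)
    simp only [Bad, not_not, Nat.sub_add_cancel hr] at h0
    have hv : VisEq (loc (T0 π (loc t π.1)) π.1) (loc t π.1) :=
      Classical.epsilon_spec (p := fun t0 => VisEq (loc t0 π.1) (loc t π.1))
        ⟨t, fun _ _ _ => rfl⟩
    generalize T0 π (loc t π.1) = t0 at h0 hv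
    have hs : Same (insert (K.cell t0) F0) F (K.cell t0) (K.cell t) ((K.cell t0).rp π)
        ((K.cell t).rp π) := by
      refine ⟨hadm t0, hF, Set.mem_insert _ _, hc, rfl, fun e he => ?_, ((hbas t0).rp π).1,
        ((hbas t).rp π).1, fun z hz => ?_⟩
      · rw [hag e he, Set.mem_insert_iff, or_iff_right]
        rintro rfl
        exact lt_irrefl _ he
      · rw [(had t0 π).read z hz, (had t π).read z hz, hvx, hvx]
        exact exists_congr fun w => and_congr_right fun hw => by rw [hvis _ _ hv π.1 w hw]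
    refine spl_of hB hBas hG1 hN hF hc ((hbas t).rp π).1 (had t π) rfl hX har ?_
    have e1 := Xh_eq hB (R := K.R) rfl hZ hs y.1 (hYl _ y.2)
    have e2 := inU_eq hB (R := K.R) rfl hZ hs (K.R ^ 11)
    have e3 := psn_eq hB (R := K.R) rfl hG hN hs (ρ := K.R ^ 14) (K.hw (ext (loc t0 π.1)) π.1)
      (K.hw (ext (loc t π.1)) π.1) (hvis _ _ hv π.1)
      (fun w hw => by have := (had t0 π).len w hw; rwa [hvx] at this)
    simp only [Xd, pd, ud, e1, e2, e3] at h0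
    rw [hvx]
    convert h0 using 3 with u u'
    rw [hXe]
    cases β <;> simp [Xh, and_comm]
  intro y hy Λ hX
  exact ⟨key ⟨y, hy⟩ true _ Λ (fun _ _ => rfl) hX,
    key ⟨y, hy⟩ false _ Λ (fun _ _ => rfl) (fb_swap hX)⟩

end Pool.Agent.P.MP_9167e9_an
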