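import Pool.Agent.P.MP_9167e9_an.StA

/-! LINK: transfer of form bounds and splittings along an injection, and the union bound. -/

noncomputable section
open scoped Classical

namespace Pool.Agent.P.MP_9167e9_an.Link

theorem nsq_image {W Z : Type} (f : W → Z) (s : Finset W) (hf : Set.InjOn f s) (ξ : Z → ℂ) :
    nsq (s.image f) ξ = nsq s (fun u => ξ (f u)) := by
  unfold nsq
  rw [Finset.sum_image (fun x hx y hy h => hf hx hy h)]

theorem nsq_mono {W : Type} {s t : Finset W} (h : s ⊆ t) (ξ : W → ℂ) : nsq s ξ ≤ nsq t ξ :=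
  Finset.sum_le_sum_of_subset_of_nonneg h fun _ _ _ => sq_nonneg _

theorem nsq_congr {W : Type} {s : Finset W} {ξ ζ : W → ℂ} (h : ∀ u ∈ s, ξ u = ζ u) :
    nsq s ξ = nsq s ζ :=
  Finset.sum_congr rfl fun u hu => by rw [h u hu]

theorem fb_nonneg {Z : Type} {X : Z → Z → ℂ} {Λ : ℝ} (h : FB X Λ) (w : Z) : 0 ≤ Λ := by
  have := h {w} {w} (fun _ => 1) (fun _ => 1)
  simp only [nsq, Finset.sum_singleton, norm_one, one_pow, Real.sqrt_one, mul_one] at this
  exact (norm_nonneg _).trans this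

theorem fb_swap {Z : Type} {X : Z → Z → ℂ} {Λ : ℝ} (h : FB X Λ) : FB (fun w w' => X w' w) Λ := by
  intro s t ξ ζ
  have := h t s ζ ξ
  rw [Finset.sum_comm] at this
  rw [mul_right_comm]
  convert this using 2
  refine Finset.sum_congr rfl fun w _ => Finset.sum_congr rfl fun w' _ => by ring

/-- A left inverse of `f` on a set where it is injective. -/
theorem exists_inv {W Z : Type} (f : W → Z) (p : W → Prop)
    (hf : ∀ u u', p u → p u' → f u = f u' → u = u') (ξ : W → ℂ) :
    ∃ η : Z → ℂ, ∀ u, p u → η (f u) = ξ u := by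
  refine ⟨fun z => if h : ∃ u, p u ∧ f u = z then ξ h.choose else 0, fun u hu => ?_⟩
  have h : ∃ u', p u' ∧ f u' = f u := ⟨u, hu, rfl⟩
  simp only [dif_pos h]
  rw [hf _ _ h.choose_spec.1 hu h.choose_spec.2]

theorem fb_pull {W Z : Type} (f : W → Z) (p : W → Prop)
    (hf : ∀ u u', p u → p u' → f u = f u' → u = u') {X : Z → Z → ℂ} {Λ : ℝ} (hΛ : 0 ≤ Λ)
    (h : FB X Λ) : FB (fun u u' => if p u ∧ p u' then X (f u) (f u') else 0) Λ := by
  intro s t ξ ζ
  obtain ⟨ξ', hξ⟩ := exists_inv f p hf ξ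
  obtain ⟨ζ', hζ⟩ := exists_inv f p hf ζ
  have inj : ∀ s : Finset W, Set.InjOn f (s.filter p : Finset W) := fun s x hx y hy hxy =>
    hf x y (Finset.mem_filter.1 hx).2 (Finset.mem_filter.1 hy).2 hxy
  have key := h ((s.filter p).image f) ((t.filter p).image f) ξ' ζ'
  rw [nsq_image f _ (inj s), nsq_image f _ (inj t),
    Finset.sum_image (fun x hx y hy h => inj s hx hy h)] at key
  simp only [Finset.sum_image (fun x hx y hy h => inj t hx hy h)] at key
  have e1 : ∑ u ∈ s, ∑ u' ∈ t, ξ u * (if p u ∧ p u' then X (f u) (f u') else 0) * ζ u' =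
      ∑ u ∈ s.filter p, ∑ u' ∈ t.filter p, ξ' (f u) * X (f u) (f u') * ζ' (f u') := by
    rw [Finset.sum_filter]
    refine Finset.sum_congr rfl fun u _ => ?_
    by_cases hu : p u
    · rw [if_pos hu, Finset.sum_filter]
      refine Finset.sum_congr rfl fun u' _ => ?_
      by_cases hu' : p u'
      · rw [if_pos hu', if_pos ⟨hu, hu'⟩, hξ u hu, hζ u' hu']
      · simp [hu']
    · simp [hu]
  rw [e1]
  refine key.trans ?_
  have a1 : nsq (s.filter p) (fun u => ξ' (f u)) ≤ nsq s ξ := by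
    rw [nsq_congr fun u hu => hξ u (Finset.mem_filter.1 hu).2]
    exact nsq_mono (Finset.filter_subset _ _) _
  have a2 : nsq (t.filter p) (fun u => ζ' (f u)) ≤ nsq t ζ := by
    rw [nsq_congr fun u hu => hζ u (Finset.mem_filter.1 hu).2]
    exact nsq_mono (Finset.filter_subset _ _) _
  gcongr

theorem spl_push {W Z ι : Type} (f : W → Z) (p : W → Prop)
    (hf : ∀ u u', p u → p u' → f u = f u' → u = u') {X : Z → Z → ℂ} {Λ s η : ℝ}
    {A : Finset W} {I : Finset ι} {B : ι → Finset W} {Fz : Finset Z} {Bz : ι → Finset Z}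
    (hA : ∀ u ∈ A, p u) (hB : ∀ v, ∀ u ∈ B v, p u) (hF : Fz = A.image f)
    (hBz : ∀ v, Bz v ⊆ (B v).image f)
    (h : Spl (fun u u' => if p u ∧ p u' then X (f u) (f u') else 0) Λ s η A I B) :
    Spl X Λ s η Fz I Bz := by
  intro ξ
  obtain ⟨ξ', h1, h2⟩ := h fun u => ξ (f u)
  choose ξ'' hξ using fun v => exists_inv f p hf (ξ' v)
  have injA : Set.InjOn f A := fun x hx y hy hxy => hf x y (hA x hx) (hA y hy) hxy
  refine ⟨ξ'', ?_, fun v hv ζ => ?_⟩
  · rw [hF, nsq_image f _ injA]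
    refine le_of_eq_of_le (Finset.sum_congr rfl fun v _ => ?_) h1
    rw [nsq_image f _ injA]
    exact nsq_congr fun u hu => hξ v u (hA u hu)
  · have injB : Set.InjOn f ((B v).filter fun u => f u ∈ Bz v : Finset W) :=
      fun x hx y hy hxy =>
        hf x y (hB v x (Finset.mem_filter.1 hx).1) (hB v y (Finset.mem_filter.1 hy).1) hxy
    have eB : Bz v = ((B v).filter fun u => f u ∈ Bz v).image f := by
      ext z
      simp only [Finset.mem_image, Finset.mem_filter]
      constructor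
      · intro hz
        obtain ⟨u, hu, rfl⟩ := Finset.mem_image.1 (hBz v hz)
        exact ⟨u, ⟨hu, hz⟩, rfl⟩
      · rintro ⟨u, ⟨_, hu⟩, rfl⟩
        exact hu
    have key := h2 v hv fun u => if f u ∈ Bz v then ζ (f u) else 0
    have e2 : nsq (B v) (fun u => if f u ∈ Bz v then ζ (f u) else 0) = nsq (Bz v) ζ := by
      conv_rhs => rw [eB, nsq_image f _ injB]
      unfold nsq
      rw [Finset.sum_filter]
      refine Finset.sum_congr rfl fun u _ => ?_
      by_cases hu : f u ∈ Bz v <;> simp [hu]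
    rw [e2, ← nsq_image f _ injA, ← hF] at key
    refine le_of_eq_of_le ?_ key
    congr 1
    rw [hF, Finset.sum_image (fun x hx y hy h => injA hx hy h)]
    refine Finset.sum_congr rfl fun u hu => ?_
    conv_lhs => rw [eB, Finset.sum_image (fun x hx y hy h => injB hx hy h), Finset.sum_filter]
    refine Finset.sum_congr rfl fun u' hu' => ?_
    rw [hξ v u (hA u hu)]
    by_cases h' : f u' ∈ Bz v <;> simp [h', hA u hu, hB v u' hu']

/-- The union bound. -/
theorem union_bound {T E : Type} [Finite T] [Nonempty T] [Fintype E] (bad : E → T → Prop)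
    (M b : ℝ) (hM : 0 < M) (h : ∀ e, (Nat.card {t // bad e t} : ℝ) * M ≤ b * Nat.card T)
    (hb : Fintype.card E * b < M) : ∃ t, ∀ e, ¬ bad e t := by
  by_contra hc
  push Not at hc
  have := Fintype.ofFinite T
  have h1 : (Finset.univ : Finset T) ⊆
      Finset.univ.biUnion fun e => Finset.univ.filter (bad e) := by
    intro t _
    obtain ⟨e, he⟩ := hc t
    simp only [Finset.mem_biUnion, Finset.mem_filter, Finset.mem_univ, true_and]
    exact ⟨e, he⟩
  have h2 : (Nat.card T : ℝ) ≤ ∑ e, (Nat.card {t // bad e t} : ℝ) := by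
    have := (Finset.card_le_card h1).trans Finset.card_biUnion_le
    rw [Finset.card_univ, ← Nat.card_eq_fintype_card] at this
    simp only [Nat.card_eq_fintype_card, Fintype.card_subtype] at this ⊢
    exact_mod_cast this
  have h3 : (Nat.card T : ℝ) * M ≤ Fintype.card E * b * Nat.card T := by
    calc (Nat.card T : ℝ) * M ≤ (∑ e, (Nat.card {t // bad e t} : ℝ)) * M := by gcongr
      _ = ∑ e, (Nat.card {t // bad e t} : ℝ) * M := Finset.sum_mul _ _ _
      _ ≤ ∑ _e : E, b * Nat.card T := Finset.sum_le_sum fun e _ => h e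
      _ = _ := by simp [mul_assoc]
  have h4 : (0 : ℝ) < Nat.card T := by exact_mod_cast Nat.card_pos
  nlinarith

/-- Uniform restriction maps keep the probability of an event. -/
theorem prob_pull {T O : Type} [Finite O] [Nonempty O] (loc : T → O) (B : O → Prop)
    (h : Nat.card {t // B (loc t)} * Nat.card O = Nat.card {s // B s} * Nat.card T) (M b : ℝ)
    (hB : (Nat.card {s // B s} : ℝ) * M ≤ Nat.card O * b) :
    (Nat.card {t // B (loc t)} : ℝ) * M ≤ b * Nat.card T := by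
  have h4 : (0 : ℝ) < Nat.card O := by exact_mod_cast Nat.card_pos
  have h' : (Nat.card {t // B (loc t)} : ℝ) * Nat.card O = Nat.card {s // B s} * Nat.card T := by
    exact_mod_cast h
  refine le_of_mul_le_mul_right ?_ h4
  calc (Nat.card {t // B (loc t)} : ℝ) * M * Nat.card O
      = (Nat.card {s // B s} * M) * Nat.card T := by
        rw [mul_right_comm, h']; ring
    _ ≤ (Nat.card O * b) * Nat.card T := by gcongr
    _ = _ := by ring

/-- The numerical inequality of the union bound. -/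
theorem num_bound (R j S E w : ℕ) (hR : 1000 ≤ R) (hj : 2 * j + 1 ≤ R) (hS : S ≤ R)
    (hE : E ≤ (2 * j) ^ (4 * (10 ^ 4 * R ^ 15)) * 2 * (R * (2 * ((R ^ 4 + 1) *
      ((R ^ 4 + 1) * (2 * j + 1))))))
    (hw : w ≤ (2 * (S + S) + 1) ^ (R ^ 11 + R ^ 4)) :
    E * (w * (R ^ 17) ^ (R ^ 17 + 1)) < (R ^ 18) ^ (R ^ 17) := by
  have h1 : 1 ≤ R := by omega
  have p1 : ∀ a b : ℕ, a ≤ b → R ^ a ≤ R ^ b := fun a b h => Nat.pow_le_pow_right h1 h
  have h2 : 2 ≤ R ^ 1 := by simp; omega
  have h5 : R ^ 4 + 1 ≤ R ^ 5 := by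
    have : 1 ≤ R ^ 4 := Nat.one_le_pow _ _ h1
    calc R ^ 4 + 1 ≤ R ^ 4 * 2 := by omega
      _ ≤ R ^ 4 * R := by gcongr; omega
      _ = R ^ 5 := by ring
  have hE' : E ≤ R ^ (4 * (10 ^ 4 * R ^ 15) + 14) := by
    refine hE.trans ?_
    calc _ ≤ R ^ (4 * (10 ^ 4 * R ^ 15)) * R ^ 1 * (R ^ 1 * (R ^ 1 * (R ^ 5 * (R ^ 5 * R ^ 1)))) := by
          gcongr
          · omega
          · simp
          · simpa using hj
      _ = _ := by simp only [← pow_add]
  have hw' : w ≤ R ^ (4 * R ^ 11) := by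
    refine hw.trans ?_
    have a1 : 2 * (S + S) + 1 ≤ R ^ 2 := by nlinarith
    have a2 : R ^ 11 + R ^ 4 ≤ 2 * R ^ 11 := by have := p1 4 11 (by norm_num); omega
    calc _ ≤ (R ^ 2) ^ (R ^ 11 + R ^ 4) := by gcongr
      _ ≤ (R ^ 2) ^ (2 * R ^ 11) := Nat.pow_le_pow_right (Nat.one_le_pow _ _ h1) a2
      _ = _ := by rw [← pow_mul]; congr 1; ring
  calc E * (w * (R ^ 17) ^ (R ^ 17 + 1))
      ≤ R ^ (4 * (10 ^ 4 * R ^ 15) + 14) * (R ^ (4 * R ^ 11) * (R ^ 17) ^ (R ^ 17 + 1)) := by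
        gcongr
    _ = R ^ (4 * (10 ^ 4 * R ^ 15) + 14 + (4 * R ^ 11 + 17 * (R ^ 17 + 1))) := by
        rw [← pow_mul, ← pow_add, ← pow_add]
    _ < R ^ (18 * R ^ 17) := by
        refine Nat.pow_lt_pow_right (by omega) ?_
        have b1 := p1 11 15 (by norm_num)
        have b2 : 1000 ≤ R ^ 15 := hR.trans (by simpa using p1 1 15 (by norm_num))
        have b3 : 10 ^ 6 * R ^ 15 ≤ R ^ 17 := by
          calc 10 ^ 6 * R ^ 15 ≤ R ^ 2 * R ^ 15 := Nat.mul_le_mul_right _ (by nlinarith)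
            _ = R ^ 17 := by ring
        omega
    _ = _ := by rw [← pow_mul]

end Pool.Agent.P.MP_9167e9_an.Link
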